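import Pool.Agent.H78.K4.Count4

/-!
# MP_5c7d49_an: the exact numbers of bounded special cases of the orders three and four

The 417 unbounded cases of order four: `H81/RDE` (helper81). The bounded cases: finite certificates
for records (`H4/RD4`, helper4; `H50/Rdb`, helper50), the families of period three (`H4/RD4`, `H30/M3`,
`H43/K4`, `H23/K4`), the eight cases with a Fibonacci branch (`H50/K4`, `H23/K4`), the three cases with
logarithmic behaviour (`H78/K4`).
-/

namespace Pool.Agent.Results.MP_5c7d49_an.ExactCounts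

open Pool.Agent.H81.RDE

/-- The number of ESB special cases of order `k`. -/
noncomputable def esbCount (k : ℕ) : ℕ := Nat.card {S : SpecialCase k // Admissible S ∧ ESB S}

/-- The number of special cases of order `k` that are not ESB. -/
noncomputable def unboundedCount (k : ℕ) : ℕ := Nat.card {S : SpecialCase k // Admissible S ∧ ¬ ESB S}

/-- The statement of Q1: 135 and 90 for `k = 3`, and 542 and 419 for `k = 4`. -/
def Conjecture : Prop :=
  (esbCount 3 = 135 ∧ unboundedCount 3 = 90) ∧ (esbCount 4 = 542 ∧ unboundedCount 4 = 419)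

/-- The exact counts for `k = 4` and `k = 3`, the disproof of the conjecture, and the lists of the
unbounded cases. -/
theorem result :
    (esbCount 4 = 544 ∧ unboundedCount 4 = 417) ∧ (esbCount 3 = 135 ∧ unboundedCount 3 = 90) ∧
      ¬ Conjecture ∧
      (∀ N D : ℕ, 1 ≤ N → N < 32 → 1 ≤ D → D < 32 →
        (¬ ESB (caseOf 4 N D) ↔ ∃ r ∈ rows, r.1 = N ∧ D ∈ r.2)) ∧
      ∀ N D : ℕ, 1 ≤ N → N < 16 → 1 ≤ D → D < 16 →
        (¬ ESB (caseOf 3 N D) ↔ ∃ r ∈ rows, r.1 = N ∧ D ∈ r.2) := by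
  have h : ∀ N D : ℕ, 1 ≤ N → N < 32 → 1 ≤ D → D < 32 →
      (¬ ESB (caseOf 4 N D) ↔ ∃ r ∈ rows, r.1 = N ∧ D ∈ r.2) := by
    intro N D h1 h2 h3 h4
    rw [Pool.Agent.H78.K4.not_esb_iff h1 h2 h3 h4]
    unfold unbounded4
    simp only [List.mem_flatMap, List.mem_map, Prod.mk.injEq]
    constructor
    · rintro ⟨r, hr, d, hd, h5, h6⟩
      exact ⟨r, hr, h5, h6 ▸ hd⟩
    · rintro ⟨r, hr, h5, h6⟩
      exact ⟨r, hr, D, h6, h5, rfl⟩
  refine ⟨Pool.Agent.H78.K4.count4, Pool.Agent.H50.Rdb.count3, fun h0 => ?_, h, fun N D h1 h2 h3 h4 => ?_⟩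
  · have h5 : esbCount 4 = 544 := Pool.Agent.H78.K4.count4.1
    have h6 := h0.2.1
    omega
  · rw [← h N D h1 (by omega) h3 (by omega)]
    exact ⟨fun h5 h6 => h5 (Pool.Agent.H50.Rdb.esb_three h2 h4 h6), not_esb_three h2 h4⟩

end Pool.Agent.Results.MP_5c7d49_an.ExactCounts
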