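import Mathlib

namespace Pool.Agent.Results.MP_5c7d49_an.LastThirdOrderCase

open Finset Real

/-- Parameters of the rational difference equation of order `k`: `alpha`, `beta i`
(the coefficient written `β_{i+1}` in the problem), `A`, `B i` (written `B_{i+1}`). -/
structure Params (k : ℕ) where
  alpha : ℝ
  beta : Fin k → ℝ
  A : ℝ
  B : Fin k → ℝ

/-- A solution, with times shifted by `k`: `x 0, …, x (k-1)` are the (nonnegative) initial
values, every denominator is positive, and the equation holds. -/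
def IsSolution {k : ℕ} (P : Params k) (x : ℕ → ℝ) : Prop :=
  (∀ n < k, 0 ≤ x n) ∧
  ∀ n : ℕ, 0 < P.A + ∑ i : Fin k, P.B i * x (n + k - 1 - i) ∧
    x (n + k) = (P.alpha + ∑ i : Fin k, P.beta i * x (n + k - 1 - i)) /
      (P.A + ∑ i : Fin k, P.B i * x (n + k - 1 - i))

/-- A special case: which of the parameters are positive (all others are zero). -/
structure SpecialCase (k : ℕ) where
  alpha : Bool
  beta : Fin k → Bool
  A : Bool
  B : Fin k → Bool

/-- The real number `t` is positive when the flag is `true`, and zero when it is `false`. -/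
def Sign (b : Bool) (t : ℝ) : Prop := if b = true then 0 < t else t = 0

/-- The parameters `P` belong to the special case `S`. -/
def Belongs {k : ℕ} (S : SpecialCase k) (P : Params k) : Prop :=
  Sign S.alpha P.alpha ∧ (∀ i, Sign (S.beta i) (P.beta i)) ∧
    Sign S.A P.A ∧ (∀ i, Sign (S.B i) (P.B i))

/-- ESB: every solution is bounded for every choice of the positive parameters. -/
def ESB {k : ℕ} (S : SpecialCase k) : Prop :=
  ∀ P : Params k, Belongs S P → ∀ x : ℕ → ℝ, IsSolution P x → ∃ M : ℝ, ∀ n, x n ≤ M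

/-- The special case `x_n = β_1 x_{n-1} / (B_2 x_{n-2} + B_3 x_{n-3})` of order three. -/
def lastCase : SpecialCase 3 where
  alpha := false
  beta := ![true, false, false]
  A := false
  B := ![false, true, true]

/-! ### The logarithmic dynamics -/

/-- One step in logarithmic coordinates. -/
lemma log_step {β B C : ℝ} (hβ : 0 < β) (hB : 0 < B) (hC : 0 < C) :
    ∀ a b c d : ℝ, 0 < a → 0 < b → 0 < c → d = β * c / (B * b + C * a) →
      ∃ e : ℝ, |e| ≤ |log β| + |log B| + |log C| + log 2 ∧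
        log d = log c - max (log b) (log a) + e := by
  intro a b c d ha hb hc hd
  have hden : 0 < B * b + C * a := by positivity
  have hld : log d = log β + log c - log (B * b + C * a) := by
    rw [hd, log_div (by positivity) hden.ne', log_mul hβ.ne' hc.ne']
  set L := log (B * b + C * a) with hL
  have h2 : (0 : ℝ) ≤ log 2 := log_nonneg (by norm_num)
  -- lower bounds
  have hl1 : log B + log b ≤ L := by
    rw [← log_mul hB.ne' hb.ne', hL]
    exact log_le_log (by positivity) (by nlinarith [mul_pos hC ha])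
  have hl2 : log C + log a ≤ L := by
    rw [← log_mul hC.ne' ha.ne', hL]
    exact log_le_log (by positivity) (by nlinarith [mul_pos hB hb])
  -- upper bound
  have hup : L ≤ log 2 + max (log B + log b) (log C + log a) := by
    rcases le_total (C * a) (B * b) with h | h
    · have : L ≤ log (2 * (B * b)) := log_le_log hden (by linarith)
      rw [log_mul (by norm_num) (by positivity), log_mul hB.ne' hb.ne'] at this
      exact this.trans (by gcongr; exact le_max_left _ _)
    · have : L ≤ log (2 * (C * a)) := log_le_log hden (by linarith)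
      rw [log_mul (by norm_num) (by positivity), log_mul hC.ne' ha.ne'] at this
      exact this.trans (by gcongr; exact le_max_right _ _)
  refine ⟨log d - (log c - max (log b) (log a)), ?_, by ring⟩
  rw [hld]
  have e1 := abs_le.1 (le_refl |log β|)
  have e2 := abs_le.1 (le_refl |log B|)
  have e3 := abs_le.1 (le_refl |log C|)
  rw [abs_le]
  rcases le_total (log a) (log b) with h | h
  · rw [max_eq_left h]
    rcases le_total (log B + log b) (log C + log a) with h' | h'
    · rw [max_eq_right h'] at hup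
      constructor <;> linarith [e1.1, e1.2, e2.1, e2.2, e3.1, e3.2]
    · rw [max_eq_left h'] at hup
      constructor <;> linarith [e1.1, e1.2, e2.1, e2.2, e3.1, e3.2]
  · rw [max_eq_right h]
    rcases le_total (log B + log b) (log C + log a) with h' | h'
    · rw [max_eq_right h'] at hup
      constructor <;> linarith [e1.1, e1.2, e2.1, e2.2, e3.1, e3.2]
    · rw [max_eq_left h'] at hup
      constructor <;> linarith [e1.1, e1.2, e2.1, e2.2, e3.1, e3.2]

/-- The cone in which fifteen steps triple the state, with a margin `K`. -/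
def Cone (E K : ℝ) (a b c : ℝ) : Prop :=
  |a - b + c| ≤ E ∧ K ≤ -c ∧ K ≤ b + c

/-- Fifteen steps. -/
lemma fifteen {E K : ℝ} (hE : 0 ≤ E) (hK : 1000 * E + 1 ≤ K) {y : ℕ → ℝ}
    (hy : ∀ n, ∃ e, |e| ≤ E ∧ y (n + 3) = y (n + 2) - max (y (n + 1)) (y n) + e)
    {n : ℕ} (h : Cone E K (y n) (y (n + 1)) (y (n + 2))) :
    Cone E (2 * K) (y (n + 15)) (y (n + 16)) (y (n + 17)) := by
  obtain ⟨h1, h2, h3⟩ := h
  rw [abs_le] at h1
  obtain ⟨e3, b3, s3⟩ := hy n
  obtain ⟨e4, b4, s4⟩ := hy (n + 1)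
  obtain ⟨e5, b5, s5⟩ := hy (n + 2)
  obtain ⟨e6, b6, s6⟩ := hy (n + 3)
  obtain ⟨e7, b7, s7⟩ := hy (n + 4)
  obtain ⟨e8, b8, s8⟩ := hy (n + 5)
  obtain ⟨e9, b9, s9⟩ := hy (n + 6)
  obtain ⟨e10, b10, s10⟩ := hy (n + 7)
  obtain ⟨e11, b11, s11⟩ := hy (n + 8)
  obtain ⟨e12, b12, s12⟩ := hy (n + 9)
  obtain ⟨e13, b13, s13⟩ := hy (n + 10)
  obtain ⟨e14, b14, s14⟩ := hy (n + 11)
  obtain ⟨e15, b15, s15⟩ := hy (n + 12)
  obtain ⟨e16, b16, s16⟩ := hy (n + 13)
  obtain ⟨e17, b17, s17⟩ := hy (n + 14)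
  rw [abs_le] at b3 b4 b5 b6 b7 b8 b9 b10 b11 b12 b13 b14 b15 b16 b17
  simp only [add_assoc, Nat.reduceAdd] at s3 s4 s5 s6 s7 s8 s9 s10 s11 s12 s13 s14 s15 s16 s17
  obtain ⟨b3l, b3u⟩ := b3
  obtain ⟨b4l, b4u⟩ := b4
  obtain ⟨b5l, b5u⟩ := b5
  obtain ⟨b6l, b6u⟩ := b6
  obtain ⟨b7l, b7u⟩ := b7
  obtain ⟨b8l, b8u⟩ := b8
  obtain ⟨b9l, b9u⟩ := b9
  obtain ⟨b10l, b10u⟩ := b10
  obtain ⟨b11l, b11u⟩ := b11
  obtain ⟨b12l, b12u⟩ := b12
  obtain ⟨b13l, b13u⟩ := b13
  obtain ⟨b14l, b14u⟩ := b14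
  obtain ⟨b15l, b15u⟩ := b15
  obtain ⟨b16l, b16u⟩ := b16
  obtain ⟨b17l, b17u⟩ := b17
  rw [max_eq_right (by linarith)] at s3
  rw [max_eq_right (by linarith)] at s4
  rw [max_eq_right (by linarith)] at s5
  rw [max_eq_right (by linarith)] at s6
  rw [max_eq_left (by linarith)] at s7
  rw [max_eq_left (by linarith)] at s8
  rw [max_eq_left (by linarith)] at s9
  rw [max_eq_left (by linarith)] at s10
  rw [max_eq_right (by linarith)] at s11
  rw [max_eq_right (by linarith)] at s12
  rw [max_eq_right (by linarith)] at s13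
  rw [max_eq_right (by linarith)] at s14
  rw [max_eq_left (by linarith)] at s15
  rw [max_eq_left (by linarith)] at s16
  rw [max_eq_left (by linarith)] at s17
  refine ⟨?_, ?_, ?_⟩
  · rw [abs_le]; constructor <;> linarith
  · linarith
  · linarith

/-- The solution with initial values `s0, s1, s2`. -/
noncomputable def orbit (β B C s0 s1 s2 : ℝ) : ℕ → ℝ
  | 0 => s0
  | 1 => s1
  | 2 => s2
  | n + 3 => β * orbit β B C s0 s1 s2 (n + 2) /
      (B * orbit β B C s0 s1 s2 (n + 1) + C * orbit β B C s0 s1 s2 n)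

lemma orbit_succ (β B C s0 s1 s2 : ℝ) (n : ℕ) :
    orbit β B C s0 s1 s2 (n + 3) = β * orbit β B C s0 s1 s2 (n + 2) /
      (B * orbit β B C s0 s1 s2 (n + 1) + C * orbit β B C s0 s1 s2 n) := by
  rw [orbit]

lemma orbit_pos {β B C s0 s1 s2 : ℝ} (hβ : 0 < β) (hB : 0 < B) (hC : 0 < C)
    (h0 : 0 < s0) (h1 : 0 < s1) (h2 : 0 < s2) :
    ∀ n, 0 < orbit β B C s0 s1 s2 n ∧ 0 < orbit β B C s0 s1 s2 (n + 1) ∧
      0 < orbit β B C s0 s1 s2 (n + 2)
  | 0 => ⟨h0, h1, h2⟩
  | n + 1 => by
    obtain ⟨ha, hb, hc⟩ := orbit_pos hβ hB hC h0 h1 h2 n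
    refine ⟨hb, hc, ?_⟩
    show 0 < orbit β B C s0 s1 s2 (n + 3)
    rw [orbit_succ]
    positivity

/-- There is an unbounded positive sequence with `x_{n+3} = β x_{n+2} / (B x_{n+1} + C x_n)`,
for all positive `β, B, C`. -/
lemma exists_unbounded {β B C : ℝ} (hβ : 0 < β) (hB : 0 < B) (hC : 0 < C) :
    ∃ x : ℕ → ℝ, (∀ n, 0 < x n) ∧
      (∀ n, x (n + 3) = β * x (n + 2) / (B * x (n + 1) + C * x n)) ∧
      ∀ M : ℝ, ∃ n, M < x n := by
  set E : ℝ := |log β| + |log B| + |log C| + log 2 with hEdef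
  have hE : 0 ≤ E := by
    have : (0 : ℝ) ≤ log 2 := log_nonneg (by norm_num)
    positivity
  set K : ℝ := 1000 * E + 1 with hKdef
  have hK1 : 1 ≤ K := by linarith
  set x := orbit β B C (exp (3 * K)) (exp (2 * K)) (exp (-K)) with hx
  have hpos : ∀ n, 0 < x n := fun n =>
    (orbit_pos hβ hB hC (exp_pos _) (exp_pos _) (exp_pos _) n).1
  have hrec : ∀ n, x (n + 3) = β * x (n + 2) / (B * x (n + 1) + C * x n) :=
    fun n => orbit_succ _ _ _ _ _ _ n
  refine ⟨x, hpos, hrec, ?_⟩
  have hy : ∀ n, ∃ e, |e| ≤ E ∧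
      (fun n => log (x n)) (n + 3) = (fun n => log (x n)) (n + 2) -
        max ((fun n => log (x n)) (n + 1)) ((fun n => log (x n)) n) + e := fun n =>
    log_step hβ hB hC _ _ _ _ (hpos n) (hpos (n + 1)) (hpos (n + 2)) (hrec n)
  have hcone : ∀ m : ℕ, Cone E (2 ^ m * K) (log (x (15 * m))) (log (x (15 * m + 1)))
      (log (x (15 * m + 2))) := by
    intro m
    induction m with
    | zero =>
      have e0 : log (x 0) = 3 * K := by
        show log (orbit _ _ _ _ _ _ 0) = _
        rw [orbit, log_exp]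
      have e1 : log (x 1) = 2 * K := by
        show log (orbit _ _ _ _ _ _ 1) = _
        rw [orbit, log_exp]
      have e2 : log (x 2) = -K := by
        show log (orbit _ _ _ _ _ _ 2) = _
        rw [orbit, log_exp]
      simp only [Nat.mul_zero, Nat.zero_add, e0, e1, e2, pow_zero, one_mul]
      refine ⟨?_, by linarith, by linarith⟩
      rw [show 3 * K - 2 * K + -K = 0 by ring, abs_zero]
      exact hE
    | succ m ih =>
      have h2m : (1 : ℝ) ≤ 2 ^ m := one_le_pow₀ (by norm_num)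
      have hKm : 1000 * E + 1 ≤ 2 ^ m * K := by
        rw [← hKdef]; nlinarith
      have := fifteen (y := fun n => log (x n)) hE hKm hy (n := 15 * m) ih
      have e : 15 * (m + 1) = 15 * m + 15 := by ring
      rw [e, pow_succ, show (2 : ℝ) ^ m * 2 * K = 2 * (2 ^ m * K) by ring]
      exact this
  intro M
  obtain ⟨m, hm⟩ := pow_unbounded_of_one_lt (|M| + 1) (by norm_num : (1 : ℝ) < 2)
  refine ⟨15 * m + 1, ?_⟩
  obtain ⟨-, h1, h2⟩ := hcone m
  have h2m : (1 : ℝ) ≤ 2 ^ m := one_le_pow₀ (by norm_num)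
  have h3 : (2 : ℝ) ^ m ≤ log (x (15 * m + 1)) := by nlinarith
  have h4 : |M| + 1 < log (x (15 * m + 1)) := lt_of_lt_of_le hm h3
  have h5 : log (x (15 * m + 1)) ≤ x (15 * m + 1) - 1 := log_le_sub_one_of_pos (hpos _)
  have := le_abs_self M
  linarith

/-- **The last undecided third-order special case has unbounded solutions.**
For all positive `β_1, B_2, B_3` the equation `x_n = β_1 x_{n-1} / (B_2 x_{n-2} + B_3 x_{n-3})`
has a positive unbounded solution; in particular this special case is not ESB. -/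
theorem result :
    (∀ P : Params 3, Belongs lastCase P →
      ∃ x : ℕ → ℝ, IsSolution P x ∧ (∀ n, 0 < x n) ∧ ∀ M : ℝ, ∃ n, M < x n) ∧
    ¬ ESB lastCase := by
  have main : ∀ P : Params 3, Belongs lastCase P →
      ∃ x : ℕ → ℝ, IsSolution P x ∧ (∀ n, 0 < x n) ∧ ∀ M : ℝ, ∃ n, M < x n := by
    rintro P ⟨h1, h2, h3, h4⟩
    have ha : P.alpha = 0 := by simpa [Sign, lastCase] using h1
    have hA : P.A = 0 := by simpa [Sign, lastCase] using h3
    have hb0 : 0 < P.beta 0 := by simpa [Sign, lastCase] using h2 0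
    have hb1 : P.beta 1 = 0 := by simpa [Sign, lastCase] using h2 1
    have hb2 : P.beta 2 = 0 := by simpa [Sign, lastCase] using h2 2
    have hB0 : P.B 0 = 0 := by simpa [Sign, lastCase] using h4 0
    have hB1 : 0 < P.B 1 := by simpa [Sign, lastCase] using h4 1
    have hB2 : 0 < P.B 2 := by simpa [Sign, lastCase] using h4 2
    obtain ⟨x, hpos, hrec, hunb⟩ := exists_unbounded hb0 hB1 hB2
    refine ⟨x, ⟨fun n _ => (hpos n).le, fun n => ?_⟩, hpos, hunb⟩
    have hden : P.A + ∑ i : Fin 3, P.B i * x (n + 3 - 1 - i) =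
        P.B 1 * x (n + 1) + P.B 2 * x n := by
      rw [Fin.sum_univ_three, hA, hB0]
      simp
    have hnum : P.alpha + ∑ i : Fin 3, P.beta i * x (n + 3 - 1 - i) =
        P.beta 0 * x (n + 2) := by
      rw [Fin.sum_univ_three, ha, hb1, hb2]
      simp
    have p0 := hpos n
    have p1 := hpos (n + 1)
    rw [hden, hnum]
    exact ⟨by positivity, hrec n⟩
  refine ⟨main, fun hESB => ?_⟩
  set P : Params 3 := ⟨0, ![1, 0, 0], 0, ![0, 1, 1]⟩ with hP
  have hbel : Belongs lastCase P := by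
    refine ⟨by simp [Sign, lastCase, hP], fun i => ?_, by simp [Sign, lastCase, hP], fun i => ?_⟩
    · fin_cases i <;> simp [Sign, lastCase, hP]
    · fin_cases i <;> simp [Sign, lastCase, hP]
  obtain ⟨x, hx, -, hunb⟩ := main P hbel
  obtain ⟨M, hM⟩ := hESB P hbel x hx
  obtain ⟨n, hn⟩ := hunb M
  exact absurd (hM n) (not_le.2 hn)

end Pool.Agent.Results.MP_5c7d49_an.LastThirdOrderCase
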